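import Pool.Agent.H96.KX.Stmt

/-!
# ETH and SETH for linear programs: the final statement (MP_c62aed_lc)
-/

namespace Pool.Agent.H96.KX

open Pool.Agent.H1.LP (Clause viol Relax)
open Filter Topology

open Classical in
/-- Linear programs of size `2 ^ (c n)` do not refute `k`-CNFs with `O(n)` clauses and with the gap
`(1 - ε) / 2 ^ k`.  There are `K` and `γ > 0` such that for all large `n` there is a finite list of
CNFs with `n` variables, at most `K n` clauses, all of width exactly `k`, every assignment violating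
at least `(1 - ε) m / 2 ^ k` of the `m` clauses, with the property: every family of linear
programming relaxations on cells of the cube, fixed in advance, with at most `2 ^ (c n)`
inequalities in total, refutes at most a fraction `2 ^ (- γ n)` of the list with margin
`2 ^ (- γ n)`. -/
def Hard (k : ℕ) (ε c : ℝ) : Prop :=
  ∃ (K : ℕ) (γ : ℝ), 0 < γ ∧ ∃ n₀ : ℕ, ∀ n : ℕ, n₀ ≤ n →
    ∃ (Y : ℕ) (m : Fin Y → ℕ) (phi : (a : Fin Y) → Fin (m a) → Clause n), 0 < Y ∧
      (∀ a, 1 ≤ m a ∧ m a ≤ K * n ∧
        (∀ i, (phi a i).card = k ∧ ((phi a i).image Prod.fst).card = k) ∧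
        ∀ x, (1 - ε) * ((m a : ℝ) / 2 ^ k) ≤ (viol (phi a) x : ℝ)) ∧
      ∀ (M : ℕ) (P : Fin M → Relax n),
        ∑ j, (((P j).size : ℝ) + 1) ≤ (2 : ℝ) ^ (c * n) →
        ((Finset.univ.filter (fun a => Refuted P (phi a) ((2 : ℝ) ^ (-(γ * n))))).card : ℝ) ≤
          (2 : ℝ) ^ (-(γ * n)) * Y

/-- ETH and SETH for linear programs with branch and bound: for every gap `ε > 0` there are
exponents `c k`, positive for all `k ≥ 3` and tending to `1`, such that linear programs of size
`2 ^ (c k n)` do not refute `k`-CNFs with `n` variables and `O(n)` clauses, in which every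
assignment violates a fraction at least `(1 - ε) / 2 ^ k` of the clauses. -/
def Statement2 : Prop :=
  ∀ ε : ℝ, 0 < ε → ∃ c : ℕ → ℝ, (∀ k, 3 ≤ k → 0 < c k) ∧ Tendsto c atTop (𝓝 1) ∧
    ∀ k, 3 ≤ k → Hard k ε (c k)

end Pool.Agent.H96.KX
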