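import Pool.Agent.H96.KX.Targets
import Pool.Agent.H96.KX.Stmt2

/-!
# MP_c62aed_lc: LP relaxations for k-SAT, all k ≥ 3: targets of the second part (helper96)
-/

namespace Pool.Agent.H96.KX

open Finset
open Pool.Agent.H1.LP (Clause viol Relax Loc Sys Agree supp ip kk)

/-- PAD: padding of the clauses -/
def S_PAD : Prop :=
  ∀ (w k : ℕ) (ε c c' : ℝ), w ≤ k → c' < c → Hard w ε c → Hard k ε c'

/-- LIM: `S_PAD → S_LIM` -/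
def S_LIM : Prop :=
  Statement → (∀ ε : ℝ, 0 < ε → ∃ c : ℝ, 0 < c ∧ Hard 3 ε c) → Statement2

/-- IDX: the index gadget is pairwise independent -/
def S_IDX : Prop :=
  ∀ q : ℕ, PairInd (fun (a : Fin q) (u : Fin q → ZMod 2) => u a)

/-- EXP3: sparse 3-uniform systems with expansion `5/3`, by counting -/
def S_EXP3 : Prop :=
  ∀ R0 : ℕ, 1 ≤ R0 → ∃ E B0 : ℕ, 1 ≤ E ∧ ∀ B : ℕ, B0 ≤ B →
    ∃ T : Fin (R0 * B) → Finset (Fin B), (∀ i, (T i).card = 3) ∧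
      ∀ S : Finset (Fin (R0 * B)), S.Nonempty → S.card ≤ 2 * (B / E) →
        5 * S.card < 3 * (S.biUnion T).card

/-- RHS3: a right hand side over `ZMod 2` far from all `A z`, by counting -/
def S_RHS3 : Prop :=
  ∀ ε : ℝ, 0 < ε → ∃ R0 : ℕ, 1 ≤ R0 ∧ ∀ (B : ℕ) (A : Fin (R0 * B) → Fin B → ZMod 2), 1 ≤ B →
    ∃ be : Fin (R0 * B) → ZMod 2, ∀ z : Fin B → ZMod 2,
      (1 - ε) * (((R0 * B : ℕ) : ℝ) / 2) ≤
        ((univ.filter (fun i => ip (A i) z ≠ be i)).card : ℝ)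

/-- X3: `S_EXP3 → S_RHS3 → S_X3`, the outer system for width 3 -/
def S_X3 : Prop :=
  ∀ ε : ℝ, 0 < ε → ∃ R0 E B0 : ℕ, 1 ≤ R0 ∧ 1 ≤ E ∧ ∀ B : ℕ, B0 ≤ B →
    ∃ (T : Fin (R0 * B) → Finset (Fin B)) (Y : Sys 2 B (R0 * B) (B / E) ((B / E) / 3)),
      (∀ i, (T i).card = 3) ∧ (∀ i j, Y.A i j = if j ∈ T i then 1 else 0) ∧
      ∀ z : Fin B → ZMod 2, (1 - ε) * (((R0 * B : ℕ) : ℝ) / 2) ≤
        ((univ.filter (fun i => ip (Y.A i) z ≠ Y.be i)).card : ℝ)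

/-- FRM3: the 3-CNF of an index vector `a`.  `C` = possible clauses, `eq c` = its equation. -/
def S_FRM3 : Prop :=
  ∀ (B R q n : ℕ) (T : Fin R → Finset (Fin B)) (A : Fin R → Fin B → ZMod 2)
    (be : Fin R → ZMod 2), 1 ≤ q → (∀ i, (T i).card = 3) →
    (∀ i j, A i j = if j ∈ T i then 1 else 0) → B * q ≤ n →
    ∃ (asg : (Fin B → Fin q → ZMod 2) → (Fin n → Bool))
      (dec : (Fin n → Bool) → (Fin B → Fin q → ZMod 2)) (C : Type) (_ : Fintype C)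
      (cl : C → Clause n) (inF : (Fin B → Fin q) → C → Prop) (eq : C → Fin R)
      (F : (Fin B → Fin q) → Finset C) (phi : (Fin B → Fin q) → Fin (4 * R) → Clause n),
      (∀ x, dec (asg x) = x) ∧ Fintype.card C ≤ R * (2 * q) ^ 3 ∧
      (∀ a c, c ∈ F a ↔ inF a c) ∧
      (∀ c, (cl c).card = 3 ∧ ((cl c).image Prod.fst).card = 3) ∧
      (∀ a i, ∃ c, phi a i = cl c) ∧
      (∀ a (g : Clause n → ℝ), ∑ i, g (phi a i) = ∑ c ∈ F a, g (cl c)) ∧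
      (∀ a y, viol (phi a) y =
        (univ.filter (fun i => ip (A i) (fun j => dec y j (a j)) ≠ be i)).card) ∧
      ∀ a c x, inF a c → ¬ (cl c).Sat (asg x) →
        ip (A (eq c)) (fun j => x j (a j)) ≠ be (eq c)

/-- CORE3: the core inequality for width 3 -/
def S_CORE3 : Prop :=
  ∀ (B R t q n : ℕ) (ε : ℝ) (T : Fin R → Finset (Fin B)) (Ys : Sys 2 B R t (t / 3)),
    1 ≤ R → 9 ≤ t → 4 ≤ q → B * q ≤ n → (∀ i, (T i).card = 3) →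
    (∀ i j, Ys.A i j = if j ∈ T i then 1 else 0) →
    (∀ z : Fin B → ZMod 2, (1 - ε) * ((R : ℝ) / 2) ≤
      ((univ.filter (fun i => ip (Ys.A i) z ≠ Ys.be i)).card : ℝ)) →
    ∃ (Y : ℕ) (m : Fin Y → ℕ) (phi : (a : Fin Y) → Fin (m a) → Clause n), 0 < Y ∧
      (∀ a, 1 ≤ m a ∧ m a ≤ 4 * R ∧
        (∀ i, (phi a i).card = 3 ∧ ((phi a i).image Prod.fst).card = 3) ∧
        ∀ x, (1 - ε) * ((m a : ℝ) / 2 ^ 3) ≤ (viol (phi a) x : ℝ)) ∧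
      ∀ (M : ℕ) (P : Fin M → Relax n) (A : Finset (Fin Y)) (de : ℝ), 0 < de →
        (∀ a ∈ A, Refuted P (phi a) de) →
        de ^ 2 * A.card * ((q : ℝ) / 4) ^ (t / 3 + 1) ≤
          9 * (R * (2 * q) ^ 3) ^ 2 * 16 ^ B * (∑ j, (((P j).size : ℝ) + 1)) * Y

/-- PARM3: choice of the parameters for width 3 -/
def S_PARM3 : Prop :=
  ∀ R0 E B0 : ℕ, 1 ≤ R0 → 1 ≤ E → ∃ (q K : ℕ) (γ c : ℝ), 4 ≤ q ∧ 0 < γ ∧ 0 < c ∧
    ∃ n₀ : ℕ, ∀ n : ℕ, n₀ ≤ n → ∃ B : ℕ, B0 ≤ B ∧ 1 ≤ B ∧ 9 ≤ B / E ∧ B * q ≤ n ∧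
      4 * (R0 * B) ≤ K * n ∧
      ∀ (W N Y : ℝ), 0 ≤ Y → W ≤ (2 : ℝ) ^ (c * n) →
        ((2 : ℝ) ^ (-(γ * n))) ^ 2 * N * ((q : ℝ) / 4) ^ ((B / E) / 3 + 1) ≤
          9 * (((R0 * B : ℕ) : ℝ) * (2 * q) ^ 3) ^ 2 * 16 ^ B * W * Y →
        N ≤ (2 : ℝ) ^ (-(γ * n)) * Y

end Pool.Agent.H96.KX
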