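import Pool.Agent.H96.KX.Targets2

/-! # MP_c62aed_lc, LP relaxations for 3-SAT: assembly of the core inequality (helper96) -/

namespace Pool.Agent.H96.KX

open Finset
open Pool.Agent.H1.LP (Clause viol Relax Loc Sys Agree supp ip kk)

theorem fin_arith3 (de Ac UB pB q4 al HU HB m0 mc W G pp : ℝ) (hU : 0 < UB) (hq4 : 0 ≤ q4)
    (hpB0 : 0 ≤ pB) (_ : 0 ≤ al) (hHB : 0 ≤ HB) (hW : 0 ≤ W) (hG : 0 ≤ G) (hmc : 0 ≤ mc)
    (hmm : mc ≤ m0)
    (hUH : HU = UB * HB) (hpB : pB * q4 = pp) (har : al * G = 1)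
    (key : de ^ 2 * Ac * UB ≤ 9 * (pB * (q4 * al * HU)) * mc ^ 2 * W) :
    de ^ 2 * Ac * G ≤ 9 * m0 ^ 2 * pp * W * HB := by
  have key2 : de ^ 2 * Ac ≤ 9 * (pB * (q4 * al * HB)) * mc ^ 2 * W := by
    have e1 : 9 * (pB * (q4 * al * HU)) * mc ^ 2 * W =
        (9 * (pB * (q4 * al * HB)) * mc ^ 2 * W) * UB := by
      rw [hUH]
      ring
    rw [e1] at key
    exact le_of_mul_le_mul_right key hU
  calc de ^ 2 * Ac * G ≤ (9 * (pB * (q4 * al * HB)) * mc ^ 2 * W) * G := by gcongr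
    _ = 9 * mc ^ 2 * (pB * q4) * W * HB * (al * G) := by ring
    _ ≤ 9 * m0 ^ 2 * (pB * q4) * W * HB * 1 := by
        rw [har]
        gcongr
    _ = _ := by
        rw [hpB]
        ring

theorem pf_CORE3 (hID : S_IDX) (hBP : S_BIP) (hBZ : S_BIZ) (hMA : S_MAS) (hPA : S_PDA)
    (hPP : S_PDP) (hAB : S_ABS) (hFR : S_FRM3)
    (hLO : Pool.Agent.H1.LP.S_LOC) (hLP : Pool.Agent.H1.LP.S_LPC) :
    S_CORE3 := by
  classical
  intro B R t q n ε T Ys hR ht hq hBn hT hA01 hfar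
  have hfact : Fact (Nat.Prime 2) := ⟨Nat.prime_two⟩
  obtain ⟨S, hS⟩ := hLO 2 B R t (t / 3) Ys (by omega)
  have hsupp : ∀ i, supp (Ys.A i) ⊆ T i := by
    intro i j hj
    by_contra hne
    have h1 : Ys.A i j ≠ 0 := (mem_filter.1 hj).2
    rw [hA01, if_neg hne] at h1
    exact h1 rfl
  have hrow : ∀ i, Ys.A i ∈ S.La ∧ S.ga (Ys.A i) = Ys.be i := by
    intro i
    apply hS
    calc (supp (Ys.A i)).card ≤ (T i).card := card_le_card (hsupp i)
      _ = 3 := hT i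
      _ ≤ _ := by omega
  obtain ⟨asg, dec, C, fC, cl, inF, eq, F, phi, hda, hcC, hF, hcl, hphi, hsum, hviol, hlast⟩ :=
    hFR B R q n T Ys.A Ys.be (by omega) hT hA01 hBn
  have hne : Nonempty (Fin q) := ⟨⟨0, by omega⟩⟩
  have hqR : (4 : ℝ) ≤ q := by exact_mod_cast hq
  have hq0 : (0 : ℝ) < q := by linarith
  obtain ⟨Yc, hYc⟩ : ∃ Yc, Fintype.card (Fin B → Fin q) = Yc := ⟨_, rfl⟩
  have hYc' : Yc = q ^ B := by
    rw [← hYc, Fintype.card_fun, Fintype.card_fin, Fintype.card_fin]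
  let e : Fin Yc ≃ (Fin B → Fin q) := (Fintype.equivFinOfCardEq hYc).symm
  refine ⟨Yc, fun _ => 4 * R, fun a => phi (e a), ?_, ?_, ?_⟩
  · rw [hYc']
    have : 0 < q := by omega
    positivity
  · intro a
    refine ⟨?_, le_rfl, ?_, ?_⟩
    · show 1 ≤ 4 * R
      omega
    · intro c
      obtain ⟨c', hc'⟩ := hphi (e a) c
      show (phi (e a) c).card = 3 ∧ ((phi (e a) c).image Prod.fst).card = 3
      rw [hc']
      exact hcl c'
    · intro y
      rw [hviol (e a) y]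
      refine le_trans (le_of_eq ?_) (hfar _)
      push_cast
      ring
  -- the inequality
  intro M P A de hde hA
  set A' : Finset (Fin B → Fin q) := A.map e.toEmbedding with hA'
  have hA'c : A'.card = A.card := card_map _
  have hA'm : ∀ a ∈ A', Refuted P (phi a) de := by
    intro a ha
    obtain ⟨i, hi, rfl⟩ := mem_map.1 ha
    exact hA i hi
  let X := Fin B → Fin q → ZMod 2
  let h : Fin q → (Fin q → ZMod 2) → ZMod 2 := fun a u => u a
  let pt : X → (Fin n → Bool) := asg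
  let sat : C → X → Prop := fun c x => (cl c).Sat (pt x)
  have hUne : Nonempty (Fin q → ZMod 2) := inferInstance
  have hPI : PairInd h := hID q
  have hc2 : Fintype.card (ZMod 2) = 2 := ZMod.card 2
  have hcU : Fintype.card (Fin q → ZMod 2) = 2 ^ q := by
    rw [Fintype.card_fun, hc2, Fintype.card_fin]
  have hQH : (Fintype.card (ZMod 2) : ℝ) ^ 2 ≤ Fintype.card (Fin q) := by
    rw [hc2, Fintype.card_fin]
    push_cast
    linarith
  obtain ⟨ka, hka⟩ : ∃ ka : ℝ, ka = (2 : ℝ) ^ B * Real.sqrt (kap (Fin q)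
    (Fin q → ZMod 2) (ZMod 2) B (t / 3 + 1)) := ⟨_, rfl⟩
  have hkap0 : 0 ≤ kap (Fin q) (Fin q → ZMod 2) (ZMod 2) B (t / 3 + 1) := by
    unfold kap
    positivity
  have hka0 : 0 ≤ ka := by
    rw [hka]
    positivity
  have hka' : ∀ s : ℝ, ka * Real.sqrt s = (2 : ℝ) ^ B * Real.sqrt (kap (Fin q)
      (Fin q → ZMod 2) (ZMod 2) B (t / 3 + 1) * s) := by
    intro s
    rw [hka, Real.sqrt_mul hkap0, mul_assoc]
  have hbil : ∀ (f : (Fin B → Fin q) → ℝ) (g : X → ℝ),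
      ∑ a, ∑ x, f a * g x * PDz S (fun i => h (a i) (x i)) =
        bil h (PDz S) f g := fun f g => rfl
  have hD1 : ∀ z, |PDz S z| ≤ (2 : ℝ) ^ B := by
    intro z
    have := (hPA 2 B _ S).1 z
    push_cast at this
    exact this
  have hmass : ∀ a : Fin B → Fin q,
      ∑ x : X, PDz S (fun i => h (a i) (x i)) = Fintype.card X := by
    intro a
    have h1 := hMA (Fin q) (Fin q → ZMod 2) (ZMod 2) h hPI B (PDz S) a
    rw [(hPA 2 B _ S).2, hc2] at h1
    have h2 : ((2 : ℕ) : ℝ) ^ B ≠ 0 := by positivity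
    have h3 := mul_right_cancel₀ h2 h1
    rw [h3]
    show _ = ((Fintype.card (Fin B → Fin q → ZMod 2) : ℕ) : ℝ)
    rw [Fintype.card_fun (α := Fin B), Fintype.card_fin]
    push_cast
    rfl
  have hres : ∀ a ∈ A', ∃ J : Finset (Fin M),
      (∀ j ∈ J, ∀ j' ∈ J, j ≠ j' → Disjoint (P j).cell (P j').cell) ∧
      (∀ x, ∃ j ∈ J, x ∈ (P j).cell) ∧ ∀ j ∈ J, (P j).Refutes (phi a) de := hA'm
  choose! J hJ1 hJ2 hJ3 using hres
  have hlp : ∀ (a : Fin B → Fin q) (j : Fin M), ∃ (lam : Fin (P j).size → ℝ) (lam0 : ℝ),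
      0 ≤ lam0 ∧ (∀ i, 0 ≤ lam i) ∧ (a ∈ A' → j ∈ J a → ∀ x ∈ (P j).cell,
        ∑ i, (P j).loss (phi a i) ((P j).pt x) - de =
          lam0 + ∑ i, lam i * ((P j).b i - ∑ k, (P j).A i k * (P j).pt x k)) := by
    intro a j
    by_cases h : a ∈ A' ∧ j ∈ J a ∧ (P j).cell.Nonempty
    · obtain ⟨lam, lam0, h0, h1, h2⟩ := hLP n (4 * R) (P j) (phi a) de h.2.2 (hJ3 a h.1 j h.2.1)
      exact ⟨lam, lam0, h0, h1, fun _ _ => h2⟩
    · refine ⟨fun _ => 0, 0, le_rfl, fun _ => le_rfl, ?_⟩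
      intro ha hj x hx
      exact absurd ⟨ha, hj, ⟨x, hx⟩⟩ h
  choose lam lam0 hl0 hl1 hl2 using hlp
  have key := hAB X (Fin B → Fin q) C
    (fun a x => PDz S (fun i => h (a i) (x i))) ka inF sat hka0 hmass
    (by
      intro f g hf hg
      rw [hbil, hka']
      refine hBP _ _ _ h hPI hQH B (t / 3 + 1) (PDz S) ((2 : ℝ) ^ B) hD1 ?_ f g hf hg
      intro τ hτ
      exact (hPP 2 B _ S τ (by omega)).1)
    (by
      intro c f g hf hf1 hg1
      rw [hbil, hka']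
      refine hBZ _ _ _ h hPI hQH B (t / 3 + 1) (PDz S) ((2 : ℝ) ^ B)
        (fun z => ip (Ys.A (eq c)) z ≠ Ys.be (eq c)) hD1 ?_ f g hf ?_
      · intro τ hτ hW
        refine (hPP 2 B _ S τ (by omega)).2 (Ys.A (eq c)) (hrow _).1 ?_
        intro z hz1
        rw [(hrow (eq c)).2]
        exact hW z hz1
      · intro a x ha hx
        exact hlast a c x (hf1 a ha) (hg1 x hx))
    M A' J (fun j => {x : X | pt x ∈ (P j).cell}) (fun j => (P j).size)
    (fun j i x => (P j).b i - ∑ k, (P j).A i k * (P j).pt (pt x) k) lam lam0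
    (fun j c x => (P j).loss (cl c) ((P j).pt (pt x))) de F hde hF
    (by
      intro a ha x
      obtain ⟨j, hj, hx⟩ := hJ2 a ha (pt x)
      exact ⟨j, hj, hx⟩)
    (by
      intro a ha j hj j' hj' hne
      rw [Set.disjoint_left]
      intro x hx hx'
      exact (Finset.disjoint_left.1 (hJ1 a ha j hj j' hj' hne)) hx hx')
    (by
      intro j i x hx
      have := (P j).feas (pt x) hx i
      linarith)
    (fun a j i => hl1 a j i) (fun a j => hl0 a j)
    (by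
      intro j c x hx
      exact (P j).bdd (pt x) hx _)
    (by
      intro j c x hx hs
      exact (P j).sound (pt x) hx _ hs)
    (by
      intro a ha j hj x hx
      have h1 := hl2 a j ha hj (pt x) hx
      rw [hsum a (fun Cl => (P j).loss Cl ((P j).pt (pt x)))] at h1
      exact h1)
  -- cleaning up
  have hcX : ((Fintype.card X : ℕ) : ℝ) = ((2 : ℝ) ^ q) ^ B := by
    show ((Fintype.card (Fin B → Fin q → ZMod 2) : ℕ) : ℝ) = _
    rw [Fintype.card_fun (α := Fin B), Fintype.card_fin, hcU]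
    push_cast
    rfl
  have hka2 : ka ^ 2 = ((2 : ℝ) ^ B) ^ 2 * (4 ^ B * ((2 : ℝ) ^ 2 / (q : ℝ)) ^
      (t / 3 + 1) * ((2 : ℝ) ^ q * (q : ℝ)) ^ B) := by
    rw [hka, mul_pow, Real.sq_sqrt hkap0]
    unfold kap
    rw [hc2, hcU, Fintype.card_fin]
    push_cast
    rfl
  rw [hA'c, hcX, hka2] at key
  have hYR : (Yc : ℝ) = (q : ℝ) ^ B := by
    rw [hYc']
    push_cast
    rfl
  rw [hYR]
  have har : ((2 : ℝ) ^ 2 / (q : ℝ)) ^ (t / 3 + 1) * ((q : ℝ) / 4) ^ (t / 3 + 1) = 1 := by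
    rw [← mul_pow]
    have : (2 : ℝ) ^ 2 / (q : ℝ) * ((q : ℝ) / 4) = 1 := by
      field_simp
      norm_num
    rw [this, one_pow]
  have hW0 : 0 ≤ ∑ j, (((P j).size : ℝ) + 1) := by positivity
  have hpB : ((2 : ℝ) ^ B) ^ 2 * 4 ^ B = 16 ^ B := by
    rw [← pow_mul, mul_comm B 2, pow_mul, ← mul_pow]
    norm_num
  have hmm : (Fintype.card C : ℝ) ≤ R * (2 * q) ^ 3 := by exact_mod_cast hcC
  exact fin_arith3 de A.card (((2 : ℝ) ^ q) ^ B) (((2 : ℝ) ^ B) ^ 2) (4 ^ B) _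
    (((2 : ℝ) ^ q * (q : ℝ)) ^ B) ((q : ℝ) ^ B) _ _ _ _ (16 ^ B) (by positivity)
    (by positivity) (by positivity) (by positivity)
    (by positivity) hW0 (by positivity) (by positivity) hmm (by rw [mul_pow]) hpB har key

end Pool.Agent.H96.KX
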