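import Pool.Agent.H96.KX.Asm
import Pool.Agent.H96.KX.CORE3
import Pool.Agent.H77.KX.EXP3
import Pool.Agent.H77.KX.LIM
import Pool.Agent.H39.KX.FRM3
import Pool.Agent.H35.KX.IDX
import Pool.Agent.H78.KX.PAD
import Pool.Agent.H11.KX.X3
import Pool.Agent.H49.KX3.RHS3
import Pool.Agent.H37.KX.PARM3

/-! # MP_c62aed_lc, LP relaxations for k-SAT, all k ≥ 3: assembly (helper96) -/

namespace Pool.Agent.H96.KX

open Finset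
open Pool.Agent.H1.LP (Clause viol Relax Loc Sys Agree supp ip kk)

theorem core3' : S_CORE3 :=
  pf_CORE3 H35.KX.pf_IDX bip' biz' H77.KX.pf_MAS H39.KX.pf_PDA H86.KX.pf_PDP H86.KX.pf_ABS
    H39.KX.pf_FRM3 H2.LP.loc lpc'

theorem hard3 (hR : S_RHS3) (hP : S_PARM3) (ε : ℝ) (hε : 0 < ε) : ∃ c : ℝ, 0 < c ∧ Hard 3 ε c := by
  classical
  obtain ⟨R0, E, B0, hR0, hE, hX⟩ := H11.KX.pf_X3 H77.KX.pf_EXP3 hR ε hε
  obtain ⟨q, K, γ, c, hq, hγ, hc, n₀, hn⟩ := hP R0 E B0 hR0 hE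
  refine ⟨c, hc, K, γ, hγ, n₀, fun n hn0 => ?_⟩
  obtain ⟨B, hB0, hB1, hBE, hBn, hKn, hpar⟩ := hn n hn0
  obtain ⟨T, Ys, hT, hA, hfar⟩ := hX B hB0
  obtain ⟨Y, m, phi, hY, h1, h2⟩ := core3' B (R0 * B) (B / E) q n ε T Ys
    (Nat.mul_pos hR0 hB1) hBE hq hBn hT hA hfar
  refine ⟨Y, m, phi, hY, ?_, ?_⟩
  · intro a
    obtain ⟨g1, g2, g3, g4⟩ := h1 a
    exact ⟨g1, g2.trans hKn, g3, g4⟩
  · intro M P hW
    have h3 := h2 M P (univ.filter (fun a => Refuted P (phi a) ((2 : ℝ) ^ (-(γ * n)))))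
      ((2 : ℝ) ^ (-(γ * n))) (by positivity) (fun a ha => (mem_filter.1 ha).2)
    exact hpar (∑ j, (((P j).size : ℝ) + 1)) _ Y (Nat.cast_nonneg Y) hW h3

theorem eth_lp : Statement2 :=
  H77.KX.pf_LIM H78.KX.pf_PAD seth_lp (hard3 H49.KX3.pf_RHS3 H37.KX.pf_PARM3)

end Pool.Agent.H96.KX
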