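import Pool.Agent.H96.KX.Targets
import Pool.Agent.H88.LP.COEF
import Pool.Agent.H29.LP.COL
import Pool.Agent.H29.LP.NUMC
import Pool.Agent.H29.LP.SMALL
import Pool.Agent.H2.LP.RHS
import Pool.Agent.H15.LP.DISP

/-! # MP_c62aed_lc: the outer system, with the lower bound for the prime (helper96) -/

namespace Pool.Agent.H96.KX

open Finset Pool.Agent.H1.LP

theorem basel : S_BASEL := by
  intro E B hE hB
  have hcoef : S_COEF := H88.LP.coef H15.LP.disp H29.LP.numc H29.LP.col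
  have hsmall : S_SMALL := H29.LP.small
  have hrhs : S_RHS := H2.LP.rhs
  obtain ⟨p, hp, hp1, hp2⟩ := Nat.exists_prime_lt_and_le_two_mul (2 ^ (4 * E)) (by positivity)
  have : Fact p.Prime := ⟨hp⟩
  obtain ⟨T, A, hT, hA, hw⟩ := hcoef E B p hE hB hp1
  obtain ⟨U, hU, hUc⟩ := hsmall p B (4 * E * B) (B / E) (B - 8 * (B / E)) A hw
  have hB1 : 1 ≤ B := by
    have : 1 ≤ 2 * (4 * E + 1) * E ^ 2 := by
      have : 0 < 2 * (4 * E + 1) * E ^ 2 := by positivity
      omega
    omega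
  have hUB : U.card ≤ B := by
    have h2 : E * (B / E) ≤ B := Nat.mul_div_le B E
    have h3 : 2 * (B / E) ≤ E * (B / E) := Nat.mul_le_mul_right _ (by omega)
    omega
  obtain ⟨be, hbe, hz⟩ := hrhs E B p A U (by omega) hB1 hp1 hUB
  refine ⟨p, ⟨hp⟩, hp1, ?_, T, ⟨A, be, hw, ?_⟩, hT, hA, hz⟩
  · rw [pow_succ]
    omega
  · intro c hc hc0
    refine sum_eq_zero fun i _ => ?_
    by_cases hi : c i = 0
    · rw [hi, zero_mul]
    · have : i ∈ U := hUc c hc hc0 (by simp [supp, hi])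
      rw [hbe i this, mul_zero]

end Pool.Agent.H96.KX
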