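import Pool.Agent.H1.LP.Asm
import Pool.Agent.H96.KX.BASEL
import Pool.Agent.H96.KX.CORE
import Pool.Agent.H96.KX.FIN
import Pool.Agent.H86.KX.ABS
import Pool.Agent.H86.KX.PDP
import Pool.Agent.H63.KX.BIP
import Pool.Agent.H77.KX.BIZ
import Pool.Agent.H77.KX.MAS
import Pool.Agent.H58.KX.FRM
import Pool.Agent.H58.KX.NPR
import Pool.Agent.H58.KX.PARM
import Pool.Agent.H78.KX.HASH
import Pool.Agent.H78.KX.JUN
import Pool.Agent.H91.KX.HVY
import Pool.Agent.H11.KX.KAP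
import Pool.Agent.H45.KX.ONEC
import Pool.Agent.H39.KX.PDA

/-! # MP_c62aed_lc, LP relaxations for k-SAT, k fixed: assembly (helper96) -/

namespace Pool.Agent.H96.KX

theorem kap' : S_KAP := H11.KX.pf_KAP (H78.KX.pf_JUN H45.KX.pf_ONEC) H91.KX.pf_HVY

theorem bip' : S_BIP := H63.KX.pf_BIP kap'

theorem biz' : S_BIZ := H77.KX.pf_BIZ kap'

theorem lpc' : Pool.Agent.H1.LP.S_LPC := H29.LP.lpc (H29.LP.lpd H29.LP.farkas)

theorem core' : S_CORE :=
  pf_CORE H78.KX.pf_HASH bip' biz' H77.KX.pf_MAS H39.KX.pf_PDA H86.KX.pf_PDP H86.KX.pf_ABS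
    H58.KX.pf_NPR H58.KX.pf_FRM basel H2.LP.loc H88.LP.enc lpc'

theorem seth_lp : Statement := pf_FIN core' H58.KX.pf_PARM

end Pool.Agent.H96.KX
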