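import Pool.Agent.H1.LP.Stmt

/-!
# SETH for linear programs, fixed clause width: the statement (MP_c62aed_lc)
-/

namespace Pool.Agent.H96.KX

open Pool.Agent.H1.LP (Clause viol Relax)

/-- The family `P` of linear programming relaxations on cells refutes the formula `phi` with margin
`de`: some of the cells are disjoint and cover the cube, and for each of these cells the total loss
is at least `de` on the whole polyhedron. -/
def Refuted {n M m : ℕ} (P : Fin M → Relax n) (phi : Fin m → Clause n) (de : ℝ) : Prop :=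
  ∃ J : Finset (Fin M), (∀ j ∈ J, ∀ j' ∈ J, j ≠ j' → Disjoint (P j).cell (P j').cell) ∧
    (∀ x, ∃ j ∈ J, x ∈ (P j).cell) ∧ ∀ j ∈ J, (P j).Refutes phi de

open Classical in
/-- SETH for linear programs, clause width and clause density fixed.  For every `ε > 0` there are a
width `k` and a density `K` such that for all large `n` there is a finite list of CNFs with `n`
variables, at most `K n` clauses, all of width exactly `k`, every assignment violating at least
`(1 - ε) m / 2 ^ k` of the `m` clauses, with the property: every family of linear programming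
relaxations on cells of the cube, fixed in advance, with at most `2 ^ ((1 - ε) n)` inequalities in
total, refutes at most a fraction `2 ^ (- γ n)` of the list with margin `2 ^ (- γ n)`. -/
def Statement : Prop :=
  ∀ ε : ℝ, 0 < ε → ∃ (k K : ℕ) (γ : ℝ), 0 < γ ∧ ∃ n₀ : ℕ, ∀ n : ℕ, n₀ ≤ n →
    ∃ (Y : ℕ) (m : Fin Y → ℕ) (phi : (a : Fin Y) → Fin (m a) → Clause n), 0 < Y ∧
      (∀ a, 1 ≤ m a ∧ m a ≤ K * n ∧
        (∀ i, (phi a i).card = k ∧ ((phi a i).image Prod.fst).card = k) ∧
        ∀ x, (1 - ε) * ((m a : ℝ) / 2 ^ k) ≤ (viol (phi a) x : ℝ)) ∧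
      ∀ (M : ℕ) (P : Fin M → Relax n),
        ∑ j, (((P j).size : ℝ) + 1) ≤ (2 : ℝ) ^ ((1 - ε) * n) →
        ((Finset.univ.filter (fun a => Refuted P (phi a) ((2 : ℝ) ^ (-(γ * n))))).card : ℝ) ≤
          (2 : ℝ) ^ (-(γ * n)) * Y

end Pool.Agent.H96.KX
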