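import Pool.Agent.H1.LP.Targets
import Pool.Agent.H96.KX.Stmt

/-!
# MP_c62aed_lc: LP relaxations for k-SAT with k fixed: definitions and targets (helper96)

`H` = Alice's alphabet, `U` = block values, `Z` = outer alphabet, `h : H → U → Z` pairwise
independent.  `a : Fin N → H`, `x : Fin N → U`, outer point `fun i => h (a i) (x i)`.
A partial assignment is `τ : Fin N → Option Z` (`none` = free).
-/

namespace Pool.Agent.H96.KX

open Finset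
open Pool.Agent.H1.LP (Clause viol Relax Loc Sys Agree supp ip kk)

/-- pairwise independent hash functions -/
def PairInd {H U Z : Type} [Fintype U] [Fintype Z] [DecidableEq Z] (h : H → U → Z) : Prop :=
  (∀ a z, (univ.filter (fun u => h a u = z)).card * Fintype.card Z = Fintype.card U) ∧
  ∀ a a', a ≠ a' → ∀ z,
    (univ.filter (fun u => h a u = z ∧ h a' u = z)).card * Fintype.card Z ^ 2 = Fintype.card U

/-- number of pinned coordinates -/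
def psz {Z : Type} {N : ℕ} (τ : Fin N → Option Z) : ℕ :=
  (univ.filter (fun i => τ i ≠ none)).card

/-- density factor of one coordinate -/
def fac {Z : Type} [Fintype Z] [DecidableEq Z] (o : Option Z) (z : Z) : ℝ :=
  match o with
  | none => 1
  | some θ => if z = θ then (Fintype.card Z : ℝ) else 0

/-- density of the subcube of `τ` -/
def jun {Z : Type} [Fintype Z] [DecidableEq Z] {N : ℕ} (τ : Fin N → Option Z) (z : Fin N → Z) :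
    ℝ := ∏ i, fac (τ i) (z i)

/-- `∑_a f a ∏_i Q 1[z i = h (a i) (x i)]` -/
def rho {H U Z : Type} [Fintype H] [Fintype Z] [DecidableEq Z] (h : H → U → Z) {N : ℕ}
    (f : (Fin N → H) → ℝ) (x : Fin N → U) (z : Fin N → Z) : ℝ :=
  ∑ a, f a * jun (fun i => some (h (a i) (x i))) z

/-- `∑_(a,x) f a g x D (h_a x)` -/
def bil {H U Z : Type} [Fintype H] [Fintype U] (h : H → U → Z) {N : ℕ}
    (D : (Fin N → Z) → ℝ) (f : (Fin N → H) → ℝ) (g : (Fin N → U) → ℝ) : ℝ :=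
  ∑ a, ∑ x, f a * g x * D (fun i => h (a i) (x i))

/-- `4 ^ N (Q ^ 2 / |H|) ^ t (|U| |H|) ^ N` -/
noncomputable def kap (H U Z : Type) [Fintype H] [Fintype U] [Fintype Z] (N t : ℕ) : ℝ :=
  4 ^ N * ((Fintype.card Z : ℝ) ^ 2 / Fintype.card H) ^ t *
    ((Fintype.card U : ℝ) * Fintype.card H) ^ N

/-! ## hashing -/

/-- the hash functions `u ↦ u 0 + ∑ a i u (i+1)` over `ZMod p` -/
def hsh (p L : ℕ) (a : Fin L → ZMod p) (u : Fin (L + 1) → ZMod p) : ZMod p :=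
  u 0 + ∑ i, a i * u i.succ

/-- HASH -/
def S_HASH : Prop :=
  ∀ (p L : ℕ) [Fact p.Prime], PairInd (hsh p L)

/-! ## the junta decomposition -/

/-- ONE: one coordinate.  `V u θ = (Q/|H|) ∑_a g a 1[h a u = θ]`, `mu u = min_θ V u θ`. -/
def S_ONEC : Prop :=
  ∀ (H U Z : Type) [Fintype H] [Fintype U] [Fintype Z] [DecidableEq Z] [Nonempty H]
    [Nonempty U] [Nonempty Z] (h : H → U → Z), PairInd h →
    ∀ (g : H → ℝ) (V : U → Z → ℝ) (mu : U → ℝ), (∀ a, 0 ≤ g a) →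
    (∀ u θ, V u θ = (Fintype.card Z : ℝ) * ∑ a, if h a u = θ then g a else 0) →
    (∀ u θ, mu u ≤ V u θ) → (∀ u, ∃ θ, mu u = V u θ) →
    (∑ u, mu u ^ 2 ≤ (Fintype.card U : ℝ) * Fintype.card H * ∑ a, g a ^ 2) ∧
    (∑ u, ∑ θ, ((V u θ - mu u) / Fintype.card Z) ^ 2 ≤
      (Fintype.card U : ℝ) * Fintype.card Z * ∑ a, g a ^ 2)

/-- JUN: `S_ONEC → S_JUN` -/
def S_JUN : Prop :=
  ∀ (H U Z : Type) [Fintype H] [Fintype U] [Fintype Z] [DecidableEq Z] [Nonempty H]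
    [Nonempty U] [Nonempty Z] (h : H → U → Z), PairInd h →
    ∀ (N : ℕ) (f : (Fin N → H) → ℝ), (∀ a, 0 ≤ f a) →
    ∃ w : (Fin N → U) → (Fin N → Option Z) → ℝ, (∀ x τ, 0 ≤ w x τ) ∧
      (∀ x z, rho h f x z = ∑ τ, w x τ * jun τ z) ∧
      ∀ s : ℝ, 0 ≤ s → ∑ x, ∑ τ, s ^ psz τ * w x τ ^ 2 ≤
        (1 + s * Fintype.card Z / Fintype.card H) ^ N *
          ((Fintype.card U : ℝ) * Fintype.card H) ^ N * ∑ a, f a ^ 2

/-- HVY: the number of heavy partial assignments, weighted -/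
def S_HVY : Prop :=
  ∀ (Z : Type) [Fintype Z] [Nonempty Z] (N t : ℕ) (s : ℝ) (w : (Fin N → Option Z) → ℝ),
    (Fintype.card Z : ℝ) ≤ s → (∀ τ, 0 ≤ w τ) →
    (∑ τ with t ≤ psz τ, w τ) ^ 2 ≤
      2 ^ N * ((Fintype.card Z : ℝ) / s) ^ t * ∑ τ, s ^ psz τ * w τ ^ 2

/-- KAP: `S_JUN → S_HVY → S_KAP` -/
def S_KAP : Prop :=
  ∀ (H U Z : Type) [Fintype H] [Fintype U] [Fintype Z] [DecidableEq Z] [Nonempty H]
    [Nonempty U] [Nonempty Z] (h : H → U → Z), PairInd h →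
    (Fintype.card Z : ℝ) ^ 2 ≤ Fintype.card H →
    ∀ (N t : ℕ) (f : (Fin N → H) → ℝ), (∀ a, 0 ≤ f a) →
    ∃ w : (Fin N → U) → (Fin N → Option Z) → ℝ, (∀ x τ, 0 ≤ w x τ) ∧
      (∀ x z, rho h f x z = ∑ τ, w x τ * jun τ z) ∧
      ∑ x, (∑ τ with t ≤ psz τ, w x τ) ^ 2 ≤ kap H U Z N t * ∑ a, f a ^ 2

/-- BIP: `S_KAP → S_BIP`, nonnegative rank one terms -/
def S_BIP : Prop :=
  ∀ (H U Z : Type) [Fintype H] [Fintype U] [Fintype Z] [DecidableEq Z] [Nonempty H]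
    [Nonempty U] [Nonempty Z] (h : H → U → Z), PairInd h →
    (Fintype.card Z : ℝ) ^ 2 ≤ Fintype.card H →
    ∀ (N t : ℕ) (D : (Fin N → Z) → ℝ) (Mx : ℝ), (∀ z, |D z| ≤ Mx) →
    (∀ τ : Fin N → Option Z, psz τ < t → 0 ≤ ∑ z, jun τ z * D z) →
    ∀ (f : (Fin N → H) → ℝ) (g : (Fin N → U) → ℝ), (∀ a, 0 ≤ f a) → (∀ x, 0 ≤ g x) →
    -(Mx * Real.sqrt (kap H U Z N t * ((∑ a, f a ^ 2) * ∑ x, g x ^ 2))) ≤ bil h D f g

/-- BIZ: `S_KAP → S_BIZ`, terms which live on a set killed by `D` -/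
def S_BIZ : Prop :=
  ∀ (H U Z : Type) [Fintype H] [Fintype U] [Fintype Z] [DecidableEq Z] [Nonempty H]
    [Nonempty U] [Nonempty Z] (h : H → U → Z), PairInd h →
    (Fintype.card Z : ℝ) ^ 2 ≤ Fintype.card H →
    ∀ (N t : ℕ) (D : (Fin N → Z) → ℝ) (Mx : ℝ) (W : (Fin N → Z) → Prop), (∀ z, |D z| ≤ Mx) →
    (∀ τ : Fin N → Option Z, psz τ < t → (∀ z, jun τ z ≠ 0 → W z) → ∑ z, jun τ z * D z = 0) →
    ∀ (f : (Fin N → H) → ℝ) (g : (Fin N → U) → ℝ), (∀ a, 0 ≤ f a) →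
    (∀ a x, f a ≠ 0 → g x ≠ 0 → W (fun i => h (a i) (x i))) →
    |bil h D f g| ≤ Mx * Real.sqrt (kap H U Z N t * ((∑ a, f a ^ 2) * ∑ x, g x ^ 2))

/-- MAS: total mass -/
def S_MAS : Prop :=
  ∀ (H U Z : Type) [Fintype H] [Fintype U] [Fintype Z] [DecidableEq Z]
    (h : H → U → Z), PairInd h →
    ∀ (N : ℕ) (D : (Fin N → Z) → ℝ) (a : Fin N → H),
    (∑ x : Fin N → U, D (fun i => h (a i) (x i))) * (Fintype.card Z : ℝ) ^ N =
      (Fintype.card U : ℝ) ^ N * ∑ z, D z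

/-! ## the pseudo-density -/

/-- the pseudo-density of a local system on the outer cube -/
noncomputable def PDz {p B d : ℕ} [NeZero p] (S : Loc p B d) (z : Fin B → ZMod p) : ℝ :=
  ∑ l ∈ S.La, (ZMod.stdAddChar (ip l z - S.ga l)).re

/-- PDA: absolute value and mean -/
def S_PDA : Prop :=
  ∀ (p B d : ℕ) [Fact p.Prime] (S : Loc p B d),
    (∀ z, |PDz S z| ≤ (p : ℝ) ^ B) ∧ ∑ z, PDz S z = (p : ℝ) ^ B

/-- PDP: positivity on subcubes, and zero on subcubes on which an equation is violated -/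
def S_PDP : Prop :=
  ∀ (p B d : ℕ) [Fact p.Prime] (S : Loc p B d) (τ : Fin B → Option (ZMod p)), psz τ ≤ d →
    (0 ≤ ∑ z, jun τ z * PDz S z) ∧
    ∀ l ∈ S.La, (∀ z, jun τ z ≠ 0 → ip l z ≠ S.ga l) → ∑ z, jun τ z * PDz S z = 0

/-! ## the abstract inequality -/

/-- ABS: `X` = points, `Y` = formulas, `C` = possible clauses, `K` = kernel, `inF a c` = the clause
`c` is in the formula `a`, `sat c x` = `x` satisfies `c`. -/
def S_ABS : Prop :=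
  ∀ (X Y C : Type) [Fintype X] [Fintype Y] [Fintype C] (K : Y → X → ℝ) (ka : ℝ)
    (inF : Y → C → Prop) (sat : C → X → Prop),
    0 ≤ ka → (∀ a, ∑ x, K a x = Fintype.card X) →
    (∀ (f : Y → ℝ) (g : X → ℝ), (∀ a, 0 ≤ f a) → (∀ x, 0 ≤ g x) →
      -(ka * Real.sqrt ((∑ a, f a ^ 2) * ∑ x, g x ^ 2)) ≤ ∑ a, ∑ x, f a * g x * K a x) →
    (∀ (c : C) (f : Y → ℝ) (g : X → ℝ), (∀ a, 0 ≤ f a) → (∀ a, f a ≠ 0 → inF a c) →
      (∀ x, g x ≠ 0 → ¬ sat c x) →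
      |∑ a, ∑ x, f a * g x * K a x| ≤ ka * Real.sqrt ((∑ a, f a ^ 2) * ∑ x, g x ^ 2)) →
    ∀ (M : ℕ) (A : Finset Y) (J : Y → Finset (Fin M)) (cell : Fin M → Set X) (r : Fin M → ℕ)
      (sl : (j : Fin M) → Fin (r j) → X → ℝ) (lam : Y → (j : Fin M) → Fin (r j) → ℝ)
      (lam0 : Y → Fin M → ℝ) (ls : Fin M → C → X → ℝ) (de : ℝ) (F : Y → Finset C),
      0 < de → (∀ a c, c ∈ F a ↔ inF a c) →
      (∀ a ∈ A, ∀ x, ∃ j ∈ J a, x ∈ cell j) →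
      (∀ a ∈ A, ∀ j ∈ J a, ∀ j' ∈ J a, j ≠ j' → Disjoint (cell j) (cell j')) →
      (∀ j i, ∀ x ∈ cell j, 0 ≤ sl j i x) → (∀ a j i, 0 ≤ lam a j i) → (∀ a j, 0 ≤ lam0 a j) →
      (∀ j c, ∀ x ∈ cell j, |ls j c x| ≤ 1) → (∀ j c, ∀ x ∈ cell j, sat c x → ls j c x ≤ 0) →
      (∀ a ∈ A, ∀ j ∈ J a, ∀ x ∈ cell j,
        ∑ c ∈ F a, ls j c x - de = lam0 a j + ∑ i, lam a j i * sl j i x) →
      de ^ 2 * A.card * Fintype.card X ≤
        9 * ka ^ 2 * (Fintype.card C : ℝ) ^ 2 * ∑ j, ((r j : ℝ) + 1)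

/-! ## formulas -/

/-- the possible clauses: an equation and a value of its blocks (`false` outside) -/
def prs {B R b : ℕ} (T : Fin R → Finset (Fin B)) : Finset (Fin R × (Fin B → Fin b → Bool)) :=
  univ.filter (fun q => ∀ j, j ∉ T q.1 → q.2 j = fun _ => false)

/-- NPR: the number of possible clauses -/
def S_NPR : Prop :=
  ∀ (B R b k : ℕ) (T : Fin R → Finset (Fin B)), (∀ i, (T i).card = k) →
    (prs (b := b) T).card = R * 2 ^ (b * k)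

/-- FRM: the formula of a table; sums over its clauses -/
def S_FRM : Prop :=
  ∀ (p B R b n : ℕ) [Fact p.Prime] (T : Fin R → Finset (Fin B))
    (A : Fin R → Fin B → ZMod p) (be : Fin R → ZMod p)
    (al : Fin B → (Fin b → Bool) → ZMod p)
    (dec : (Fin n → Bool) → (Fin B → Fin b → Bool))
    (cl : Finset (Fin B) → (Fin B → Fin b → Bool) → Clause n),
    (∀ i, supp (A i) ⊆ T i) →
    (∀ T v y, (cl T v).Sat y ↔ ¬ Agree T (dec y) v) →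
    ∃ (m : ℕ) (phi : Fin m → Clause n), m ≤ (prs (b := b) T).card ∧
      (∀ c, ∃ q ∈ prs (b := b) T, phi c = cl (T q.1) q.2) ∧
      (∀ g : Clause n → ℝ, ∑ c, g (phi c) =
        ∑ q ∈ (prs (b := b) T).filter (fun q => ip (A q.1) (H1.LP.val al q.2) ≠ be q.1),
          g (cl (T q.1) q.2)) ∧
      ∀ y, viol phi y = (univ.filter (fun i => ip (A i) (H1.LP.val al (dec y)) ≠ be i)).card

/-! ## assembly -/

/-- BASE with the lower bound for `p` -/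
def S_BASEL : Prop :=
  ∀ (E B : ℕ), 8 ≤ E → 2 * (4 * E + 1) * E ^ 2 ≤ B →
    ∃ (p : ℕ) (_ : Fact p.Prime), 2 ^ (4 * E) < p ∧ p ≤ 2 ^ (4 * E + 1) ∧
      ∃ (T : Fin (4 * E * B) → Finset (Fin B))
        (Y : Sys p B (4 * E * B) (B / E) (B - 8 * (B / E))),
        (∀ i, (T i).card = 2 * (4 * E + 1) * E ^ 2) ∧ (∀ i, supp (Y.A i) ⊆ T i) ∧
        ∀ z : Fin B → ZMod p,
          (4 * E - 3) * B ≤ (univ.filter (fun i => ip (Y.A i) z ≠ Y.be i)).card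

/-- the core inequality; `b = (4E+1)(L+1)` bits per block, width `b kk E` -/
def S_CORE : Prop :=
  ∀ (E L n B : ℕ), 16 ≤ E → 2 ≤ L → 2 * kk E ≤ B → B * ((4 * E + 1) * (L + 1)) ≤ n →
    ∃ (Y : ℕ) (m : Fin Y → ℕ) (phi : (a : Fin Y) → Fin (m a) → Clause n), 0 < Y ∧
      (∀ a, 1 ≤ m a ∧ m a ≤ 4 * E * B * 2 ^ ((4 * E + 1) * (L + 1) * kk E) ∧
        (∀ i, (phi a i).card = (4 * E + 1) * (L + 1) * kk E ∧
          ((phi a i).image Prod.fst).card = (4 * E + 1) * (L + 1) * kk E) ∧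
        ∀ x, (1 - 1 / (E : ℝ)) * ((m a : ℝ) / 2 ^ ((4 * E + 1) * (L + 1) * kk E)) ≤
          (viol (phi a) x : ℝ)) ∧
      ∀ (M : ℕ) (P : Fin M → Relax n) (A : Finset (Fin Y)) (de : ℝ), 0 < de →
        (∀ a ∈ A, Refuted P (phi a) de) →
        de ^ 2 * A.card * 2 ^ (4 * E * (L - 2) * (B - 8 * (B / E))) ≤
          9 * (4 * E * B * 2 ^ ((4 * E + 1) * (L + 1) * kk E)) ^ 2 *
            (2 ^ (4 * E + 1)) ^ (2 * B) * 4 ^ B * (∑ j, (((P j).size : ℝ) + 1)) * Y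

/-- PAR: choice of the parameters -/
def S_PARM : Prop :=
  ∀ ε : ℝ, 0 < ε → ∃ (E L K : ℕ) (γ : ℝ), 16 ≤ E ∧ 2 ≤ L ∧ 1 / (E : ℝ) ≤ ε ∧ 0 < γ ∧
    ∃ n₀ : ℕ, ∀ n : ℕ, n₀ ≤ n → ∃ B : ℕ, 2 * kk E ≤ B ∧ B * ((4 * E + 1) * (L + 1)) ≤ n ∧
      4 * E * B * 2 ^ ((4 * E + 1) * (L + 1) * kk E) ≤ K * n ∧
      ∀ (W c Y : ℝ), 0 ≤ Y → W ≤ (2 : ℝ) ^ ((1 - ε) * n) →
        ((2 : ℝ) ^ (-(γ * n))) ^ 2 * c * 2 ^ (4 * E * (L - 2) * (B - 8 * (B / E))) ≤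
          9 * (4 * E * B * 2 ^ ((4 * E + 1) * (L + 1) * kk E)) ^ 2 *
            (2 ^ (4 * E + 1)) ^ (2 * B) * 4 ^ B * W * Y →
        c ≤ (2 : ℝ) ^ (-(γ * n)) * Y

end Pool.Agent.H96.KX
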